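import Pool.Agent.N662.FP.Stm2

/-!
Project FL part 2, leaf POSZ: positivity of the time constant at lattice points.
-/

set_option autoImplicit false
open MeasureTheory ProbabilityTheory Filter Set
open scoped ENNReal Pointwise Topology
open Pool.Agent.N662.FP

namespace Pool.Agent.N476.FM

lemma coord_bound {p : ℕ → ℤ × ℤ} {n : ℕ} (h0 : p 0 = 0)
    (hs : ∀ i < n, |(p (i + 1)).1 - (p i).1| + |(p (i + 1)).2 - (p i).2| = 1) :
    ∀ i ≤ n, |(p i).1| ≤ (i : ℤ) ∧ |(p i).2| ≤ (i : ℤ) := by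
  intro i
  induction i with
  | zero => intro _; rw [h0]; simp
  | succ i ih =>
    intro hi
    obtain ⟨h1, h2⟩ := ih (by omega)
    have h3 := hs i (by omega)
    have h4 := abs_nonneg ((p (i + 1)).1 - (p i).1)
    have h5 := abs_nonneg ((p (i + 1)).2 - (p i).2)
    have h6 := abs_add_le ((p (i + 1)).1 - (p i).1) (p i).1
    have h7 := abs_add_le ((p (i + 1)).2 - (p i).2) (p i).2
    rw [sub_add_cancel] at h6 h7
    push_cast
    constructor <;> linarith

theorem t_POSZ (h1 : S_CNT) (h2 : S_SAW) (h3 : S_AE) (h4 : S_GE) : S_POSZ := by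
  intro Ω _ _ X hX z a hlim
  have hsum : ∑' n : ℕ, (volume : Measure Ω) {ω | Fast (env X ω) n} ≠ ∞ := by
    refine ne_top_of_le_ne_top ?_ (ENNReal.tsum_le_tsum fun n => h1 Ω X hX n)
    rw [one_div, ENNReal.tsum_geometric_two]
    exact ENNReal.ofNat_ne_top
  have hBC := MeasureTheory.ae_eventually_notMem hsum
  obtain ⟨ω, hω1, hω2, hω3⟩ := (hlim.and ((h3 Ω X hX).and hBC)).exists
  have hge : ∀ᶠ k : ℕ in atTop, 1 / 25 * max |(z.1 : ℝ)| |(z.2 : ℝ)| ≤
      D (env X ω) 0 ((k : ℤ) • z) / (k : ℝ) := by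
    obtain ⟨N0, hN0⟩ := eventually_atTop.1 hω3
    filter_upwards [eventually_ge_atTop N0, eventually_ge_atTop 1] with k hk hk1
    have hk0 : (0 : ℝ) < k := by exact_mod_cast hk1
    obtain ⟨g1, g2, g3, g4⟩ := h4 (env X ω) hω2 0 ((k : ℤ) • z)
    rw [le_div_iff₀ hk0]
    rcases eq_or_ne z 0 with hz | hz
    · subst hz
      simpa using g3
    · unfold D
      refine le_csInf g1 fun s hs => ?_
      obtain ⟨n, p, hp0, hpn, hstep, hinj, hle⟩ := h2 (env X ω) hω2 0 _ s hs
      obtain ⟨e1, e2⟩ := coord_bound hp0 hstep n le_rfl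
      rw [hpn] at e1 e2
      have e3 : |((k : ℤ) • z).1| = (k : ℤ) * |z.1| := by
        rw [Prod.smul_fst, smul_eq_mul, abs_mul, Nat.abs_cast]
      have e4 : |((k : ℤ) • z).2| = (k : ℤ) * |z.2| := by
        rw [Prod.smul_snd, smul_eq_mul, abs_mul, Nat.abs_cast]
      rw [e3] at e1
      rw [e4] at e2
      have hkz : (0 : ℤ) ≤ k := Int.natCast_nonneg k
      have hM : 1 ≤ max |z.1| |z.2| := by
        by_contra hcon
        push Not at hcon
        have q1 := le_max_left |z.1| |z.2|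
        have q2 := le_max_right |z.1| |z.2|
        have q3 : |z.1| = 0 := le_antisymm (by omega) (abs_nonneg _)
        have q4 : |z.2| = 0 := le_antisymm (by omega) (abs_nonneg _)
        exact hz (Prod.ext (abs_eq_zero.1 q3) (abs_eq_zero.1 q4))
      have hkM : (k : ℤ) * max |z.1| |z.2| ≤ n := by
        rcases max_choice |z.1| |z.2| with h | h <;> rw [h]
        · exact e1
        · exact e2
      have hkn : k ≤ n := by
        have : (k : ℤ) * 1 ≤ (k : ℤ) * max |z.1| |z.2| := mul_le_mul_of_nonneg_left hM hkz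
        have q : (k : ℤ) ≤ n := by linarith
        exact_mod_cast q
      have hnf := hN0 n (le_trans hk hkn)
      have hlt : 1 / 25 * (n : ℝ) < ∑ i ∈ Finset.range n, env X ω s(p i, p (i + 1)) := by
        by_contra hcon
        exact hnf ⟨p, hp0, hstep, hinj, not_lt.1 hcon⟩
      have hkMr : (k : ℝ) * max |(z.1 : ℝ)| |(z.2 : ℝ)| ≤ n := by
        have : (((k : ℤ) * max |z.1| |z.2| : ℤ) : ℝ) ≤ ((n : ℤ) : ℝ) := by exact_mod_cast hkM
        push_cast at this
        exact this
      nlinarith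
  exact ge_of_tendsto hω1 hge

end Pool.Agent.N476.FM
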